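import Pool.Agent.H94.T3.Targets
import Pool.Agent.H84.KL.MLR
import Pool.Agent.H19.KL.PACK
import Pool.Agent.H83.G.TenA

/-!
Theorem G (MP_ee74d2_an), (T3), module MLS: trilinear restriction for the cone, with sums over
separated points.
-/

set_option autoImplicit false

namespace Pool.Agent.H56.T3

open MeasureTheory Set
open Pool.Agent.H82.KL (EE U Sep Transv e)

private theorem norm_e (x : ℝ) : ‖e x‖ = 1 := by
  unfold Pool.Agent.H82.KL.e
  exact Complex.norm_exp_ofReal_mul_I _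

/-- Cauchy-Schwarz -/
private theorem U_le {d : ℕ} {Γ : Set (EE d)} (hΓ : IsCompact Γ) {b : EE d → ℂ}
    (hb : Continuous b) (hs : ∀ ξ, b ξ ≠ 0 → ξ ∈ Γ) (z : EE d × ℝ) :
    ‖U b z‖ ≤ Real.sqrt (volume Γ).toReal * Real.sqrt (∫ ξ, ‖b ξ‖ ^ 2) := by
  have hΓm : MeasurableSet Γ := hΓ.measurableSet
  have hfin : volume Γ ≠ ⊤ := hΓ.measure_lt_top.ne
  have hcs : HasCompactSupport b := by
    refine HasCompactSupport.intro hΓ fun x hx => ?_
    by_contra hc
    exact hx (hs x hc)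
  have h1 : ‖U b z‖ ≤ ∫ ξ, ‖b ξ‖ := by
    unfold Pool.Agent.H82.KL.U
    refine (norm_integral_le_integral_norm _).trans (le_of_eq ?_)
    refine integral_congr_ae (Filter.Eventually.of_forall fun ξ => ?_)
    simp only
    rw [norm_mul, norm_e, one_mul]
  have hb2 : MemLp (fun ξ => ‖b ξ‖) (ENNReal.ofReal 2) volume := by
    rw [ENNReal.ofReal_ofNat]
    exact (hb.memLp_of_hasCompactSupport hcs).norm
  have hi2 : MemLp (Γ.indicator (fun _ => (1 : ℝ))) (ENNReal.ofReal 2) (volume : Measure (EE d)) := by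
    rw [ENNReal.ofReal_ofNat]
    exact memLp_indicator_const 2 hΓm 1 (Or.inr hfin)
  have h2 := integral_mul_le_Lp_mul_Lq_of_nonneg (p := 2) (q := 2) (μ := (volume : Measure (EE d)))
    (by constructor <;> norm_num) (f := Γ.indicator (fun _ => (1 : ℝ))) (g := fun ξ => ‖b ξ‖)
    (Filter.Eventually.of_forall fun x => indicator_nonneg (fun _ _ => zero_le_one) x)
    (Filter.Eventually.of_forall fun x => norm_nonneg _) hi2 hb2
  have h3 : ∫ ξ, ‖b ξ‖ = ∫ ξ, Γ.indicator (fun _ => (1 : ℝ)) ξ * ‖b ξ‖ := by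
    refine integral_congr_ae (Filter.Eventually.of_forall fun ξ => ?_)
    simp only
    by_cases h : ξ ∈ Γ
    · rw [indicator_of_mem h, one_mul]
    · have : b ξ = 0 := by
        by_contra hc
        exact h (hs ξ hc)
      rw [this, norm_zero, mul_zero]
  have h4 : ∫ ξ, Γ.indicator (fun _ => (1 : ℝ)) ξ ^ (2 : ℝ) = (volume Γ).toReal := by
    have : (fun ξ => Γ.indicator (fun _ => (1 : ℝ)) ξ ^ (2 : ℝ)) = Γ.indicator (fun _ => (1 : ℝ)) := by
      funext ξ
      by_cases h : ξ ∈ Γ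
      · rw [indicator_of_mem h, Real.one_rpow]
      · rw [indicator_of_notMem h, Real.zero_rpow (by norm_num)]
    rw [this, integral_indicator hΓm]
    simp [Measure.real]
  have h5 : ∫ ξ, ‖b ξ‖ ^ (2 : ℝ) = ∫ ξ, ‖b ξ‖ ^ 2 := by
    refine integral_congr_ae (Filter.Eventually.of_forall fun ξ => ?_)
    simp only
    rw [Real.rpow_two]
  rw [h4, h5, ← h3, ← Real.sqrt_eq_rpow, ← Real.sqrt_eq_rpow] at h2
  exact h1.trans h2

private theorem U_mul {d : ℕ} (c : ℂ) (b : EE d → ℂ) (z : EE d × ℝ) :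
    U (fun ξ => c * b ξ) z = c * U b z := by
  unfold Pool.Agent.H82.KL.U
  rw [← integral_const_mul]
  refine integral_congr_ae (Filter.Eventually.of_forall fun ξ => ?_)
  simp only
  ring

private theorem lev (v : ℝ) : ∃ m : ℕ, 0 < v → v ≤ 1 → 2 ^ m * v ≤ 1 ∧ 1 ≤ 2 ^ (m + 1) * v := by
  by_cases h : 0 < v ∧ v ≤ 1
  · obtain ⟨m, h1, h2⟩ := exists_nat_pow_near (x := 1 / v) (y := (2 : ℝ))
      (by rw [le_div_iff₀ h.1]; linarith [h.2]) one_lt_two
    refine ⟨m, fun _ _ => ⟨?_, ?_⟩⟩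
    · rwa [le_div_iff₀ h.1] at h1
    · rw [div_lt_iff₀ h.1] at h2
      exact h2.le
  · exact ⟨0, fun h1 h2 => absurd ⟨h1, h2⟩ h⟩

/-- MLS: trilinear restriction for the cone, with sums over separated points -/
theorem pf_MLS : Pool.Agent.H94.T3.T_MLS := by
  classical
  intro d Γ ε hε hΓ h0 hT
  obtain ⟨Cm, hCm, hml⟩ := Pool.Agent.H84.KL.mlr_main d 3 Γ (ε / 2) (by norm_num) (by positivity)
    hΓ h0 hT
  obtain ⟨Cp, hCp, hpk⟩ := Pool.Agent.H19.KL.pack_main d
  obtain ⟨Cl, hCl, hlg⟩ := Pool.Agent.H83.G.TEN.logn ((d : ℝ) + 1) (1 + Cp * 2 ^ (d + 1)) (ε / 2)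
    (by positivity) (by
      have : 0 ≤ Cp * 2 ^ (d + 1) := by positivity
      linarith) (by positivity) 3
  obtain ⟨D, hD⟩ : ∃ D : ℝ, D = 1 + ∑ j, Real.sqrt (volume (Γ j)).toReal := ⟨_, rfl⟩
  have hD1 : 1 ≤ D := by
    rw [hD]
    have : 0 ≤ ∑ j, Real.sqrt (volume (Γ j)).toReal :=
      Finset.sum_nonneg fun j _ => Real.sqrt_nonneg _
    linarith
  have hDj : ∀ j, Real.sqrt (volume (Γ j)).toReal ≤ D := by
    intro j
    rw [hD]
    have := Finset.single_le_sum (f := fun j => Real.sqrt (volume (Γ j)).toReal)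
      (fun j _ => Real.sqrt_nonneg _) (Finset.mem_univ j)
    linarith
  have hD0 : 0 < D := by linarith
  refine ⟨D ^ 3 * (1 + 8 * Cm * Cl), by positivity, ?_⟩
  intro R b z₀ Y hR hb hs hY hz
  have hR0 : 0 < R := by linarith
  obtain ⟨s, hsdef⟩ : ∃ s : Fin 3 → ℝ, s = fun j => Real.sqrt (∫ ξ, ‖b j ξ‖ ^ 2) := ⟨_, rfl⟩
  have hs0 : ∀ j, 0 ≤ s j := by
    intro j
    rw [hsdef]
    exact Real.sqrt_nonneg _
  have hU : ∀ j z, ‖U (b j) z‖ ≤ D * s j := by
    intro j z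
    refine (U_le (hΓ j) (hb j) (hs j) z).trans ?_
    rw [hsdef]
    exact mul_le_mul_of_nonneg_right (hDj j) (Real.sqrt_nonneg _)
  have hgoal : ∏ j, Real.sqrt (∫ ξ, ‖b j ξ‖ ^ 2) = ∏ j, s j := by rw [hsdef]
  rw [hgoal]
  by_cases hsp : ∀ j, 0 < s j
  swap
  · obtain ⟨j, hj⟩ := not_forall.1 hsp
    have hj0 : s j = 0 := le_antisymm (not_lt.1 hj) (hs0 j)
    have h1 : ∀ z ∈ Y, ∏ j, ‖U (b j) z‖ = 0 := by
      intro z _
      refine Finset.prod_eq_zero (Finset.mem_univ j) ?_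
      have h2 := hU j z
      rw [hj0, mul_zero] at h2
      exact le_antisymm h2 (norm_nonneg _)
    rw [Finset.sum_eq_zero h1]
    have : 0 ≤ ∏ j, s j := Finset.prod_nonneg fun j _ => hs0 j
    positivity
  -- normalised values
  obtain ⟨v, hv⟩ : ∃ v : EE d × ℝ → Fin 3 → ℝ, v = fun z j => ‖U (b j) z‖ / (D * s j) := ⟨_, rfl⟩
  have hds : ∀ j, 0 < D * s j := fun j => mul_pos hD0 (hsp j)
  have hv0 : ∀ z j, 0 ≤ v z j := by
    intro z j
    rw [hv]
    exact div_nonneg (norm_nonneg _) (hds j).le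
  have hv1 : ∀ z j, v z j ≤ 1 := by
    intro z j
    rw [hv]
    exact (div_le_one (hds j)).2 (hU j z)
  have hvU : ∀ z, ∏ j, ‖U (b j) z‖ = (∏ j, v z j) * (D ^ 3 * ∏ j, s j) := by
    intro z
    have h1 : ∀ j, ‖U (b j) z‖ = v z j * (D * s j) := by
      intro j
      rw [hv]
      exact (div_mul_cancel₀ _ (hds j).ne').symm
    rw [Finset.prod_congr rfl fun j _ => h1 j, Finset.prod_mul_distrib, Finset.prod_mul_distrib]
    simp
  obtain ⟨n, hn1, hn2⟩ := hlg R hR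
  -- number of points
  have hcard : (Y.card : ℝ) ≤ 2 ^ n := by
    have h1 := hpk Y z₀ R hY hR0.le (fun z hz' => by rw [dist_comm]; exact hz z hz')
    refine h1.trans (le_trans ?_ hn1)
    have h2 : (1 + R) ^ (d + 1) ≤ (2 * R) ^ (d + 1) := by gcongr; linarith
    have h3 : R ^ ((d : ℝ) + 1) = R ^ (d + 1) := by
      rw [← Real.rpow_natCast]
      push_cast
      rfl
    rw [h3]
    calc Cp * (1 + R) ^ (d + 1) ≤ Cp * (2 * R) ^ (d + 1) := mul_le_mul_of_nonneg_left h2 hCp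
      _ = (Cp * 2 ^ (d + 1)) * R ^ (d + 1) := by rw [mul_pow]; ring
      _ ≤ (1 + Cp * 2 ^ (d + 1)) * R ^ (d + 1) :=
        mul_le_mul_of_nonneg_right (by linarith) (by positivity)
  -- split
  choose lv hlv using fun (z : EE d × ℝ) (j : Fin 3) => lev (v z j)
  set Y1 := Y.filter (fun z => ∀ j, 1 < 2 ^ n * v z j) with hY1
  set Y0 := Y.filter (fun z => ¬ ∀ j, 1 < 2 ^ n * v z j) with hY0
  have hsplit : ∑ z ∈ Y, ∏ j, v z j = ∑ z ∈ Y1, ∏ j, v z j + ∑ z ∈ Y0, ∏ j, v z j := by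
    rw [hY1, hY0, Finset.sum_filter_add_sum_filter_not]
  have hsum0 : ∑ z ∈ Y0, ∏ j, v z j ≤ 1 := by
    have h1 : ∀ z ∈ Y0, ∏ j, v z j ≤ (2 ^ n)⁻¹ := by
      intro z hz0
      rw [hY0, Finset.mem_filter] at hz0
      obtain ⟨j, hj⟩ := not_forall.1 hz0.2
      have h2 : v z j ≤ (2 ^ n)⁻¹ := by
        rw [← one_div, le_div_iff₀ (by positivity), mul_comm]
        exact not_lt.1 hj
      have h3 : ∏ i, v z i ≤ v z j := by
        rw [← Finset.mul_prod_erase Finset.univ (v z) (Finset.mem_univ j)]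
        have h4 : ∏ x ∈ Finset.univ.erase j, v z x ≤ 1 :=
          Finset.prod_le_one (fun i _ => hv0 z i) (fun i _ => hv1 z i)
        exact mul_le_of_le_one_right (hv0 z j) h4
      exact h3.trans h2
    calc ∑ z ∈ Y0, ∏ j, v z j ≤ ∑ z ∈ Y0, ((2 : ℝ) ^ n)⁻¹ := Finset.sum_le_sum h1
      _ = (Y0.card : ℝ) * ((2 : ℝ) ^ n)⁻¹ := by rw [Finset.sum_const, nsmul_eq_mul]
      _ ≤ (Y.card : ℝ) * ((2 : ℝ) ^ n)⁻¹ := by
        refine mul_le_mul_of_nonneg_right ?_ (by positivity)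
        exact_mod_cast Finset.card_filter_le _ _
      _ ≤ 2 ^ n * ((2 : ℝ) ^ n)⁻¹ := mul_le_mul_of_nonneg_right hcard (by positivity)
      _ = 1 := mul_inv_cancel₀ (by positivity)
  have hsum1 : ∑ z ∈ Y1, ∏ j, v z j ≤ 8 * Cm * Cl * R ^ ε := by
    obtain ⟨K, hK⟩ : ∃ K : Finset (Fin 3 → ℕ), K = Fintype.piFinset (fun _ => Finset.range n) :=
      ⟨_, rfl⟩
    have hmaps : ∀ z ∈ Y1, lv z ∈ K := by
      intro z hz1
      rw [hY1, Finset.mem_filter] at hz1
      rw [hK, Fintype.mem_piFinset]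
      intro j
      rw [Finset.mem_range]
      have h1 := hz1.2 j
      have hvp : 0 < v z j := by
        by_contra hc
        have : v z j = 0 := le_antisymm (not_lt.1 hc) (hv0 z j)
        rw [this, mul_zero] at h1
        linarith
      have h2 := (hlv z j hvp (hv1 z j)).1
      have h3 : (2 : ℝ) ^ lv z j * v z j < 2 ^ n * v z j := lt_of_le_of_lt h2 h1
      have h4 : (2 : ℝ) ^ lv z j < 2 ^ n := lt_of_mul_lt_mul_right h3 (hv0 z j)
      exact (pow_lt_pow_iff_right₀ one_lt_two).1 h4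
    rw [← Finset.sum_fiberwise_of_maps_to hmaps]
    have hfib : ∀ κ ∈ K, ∑ z ∈ Y1.filter (fun z => lv z = κ), ∏ j, v z j ≤
        8 * Cm * R ^ (ε / 2) := by
      intro κ _
      set Yk := Y1.filter (fun z => lv z = κ) with hYk
      have hin : ∀ z ∈ Yk, z ∈ Y ∧ (∀ j, 0 < v z j) ∧ lv z = κ := by
        intro z hzk
        rw [hYk, Finset.mem_filter, hY1, Finset.mem_filter] at hzk
        refine ⟨hzk.1.1, fun j => ?_, hzk.2⟩
        by_contra hc
        have : v z j = 0 := le_antisymm (not_lt.1 hc) (hv0 z j)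
        have h1 := hzk.1.2 j
        rw [this, mul_zero] at h1
        linarith
      obtain ⟨c, hc⟩ : ∃ c : Fin 3 → ℝ, c = fun j => 2 ^ (κ j + 1) / (D * s j) := ⟨_, rfl⟩
      have hc0 : ∀ j, 0 < c j := by
        intro j
        rw [hc]
        exact div_pos (by positivity) (hds j)
      have hnum := hml R (fun j ξ => ((c j : ℝ) : ℂ) * b j ξ) z₀ Yk hR
        (fun j => continuous_const.mul (hb j))
        (fun j ξ hξ => hs j ξ (right_ne_zero_of_mul hξ))
        (fun z hz1 z' hz2 hne => hY z (hin z hz1).1 z' (hin z' hz2).1 hne)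
        (fun z hz1 => hz z (hin z hz1).1)
        (fun z hz1 j => by
          rw [U_mul, norm_mul, Complex.norm_of_nonneg (hc0 j).le]
          have h1 := (hlv z j ((hin z hz1).2.1 j) (hv1 z j)).2
          rw [(hin z hz1).2.2] at h1
          have h2 : c j * ‖U (b j) z‖ = 2 ^ (κ j + 1) * v z j := by
            rw [hc, hv]
            ring
          rw [h2]
          exact h1)
      have hint : ∀ j, (∫ ξ, ‖((c j : ℝ) : ℂ) * b j ξ‖ ^ 2) ^ (1 / (((3 : ℕ) : ℝ) - 1)) =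
          2 ^ (κ j + 1) / D := by
        intro j
        have h1 : ∫ ξ, ‖((c j : ℝ) : ℂ) * b j ξ‖ ^ 2 = (c j * s j) ^ 2 := by
          have h2 : ∀ ξ, ‖((c j : ℝ) : ℂ) * b j ξ‖ ^ 2 = c j ^ 2 * ‖b j ξ‖ ^ 2 := by
            intro ξ
            rw [norm_mul, Complex.norm_of_nonneg (hc0 j).le, mul_pow]
          simp_rw [h2]
          rw [integral_const_mul, mul_pow]
          congr 1
          rw [hsdef]
          exact (Real.sq_sqrt (integral_nonneg fun ξ => by positivity)).symm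
        rw [h1]
        have h3 : (1 / (((3 : ℕ) : ℝ) - 1)) = 1 / 2 := by norm_num
        rw [h3, ← Real.sqrt_eq_rpow, Real.sqrt_sq (mul_pos (hc0 j) (hsp j)).le, hc]
        have := (hsp j).ne'
        field_simp
      rw [Finset.prod_congr rfl fun j _ => hint j] at hnum
      have hterm : ∀ z ∈ Yk, ∏ j, v z j ≤ ∏ j, ((2 : ℝ) ^ κ j)⁻¹ := by
        intro z hz1
        refine Finset.prod_le_prod (fun j _ => hv0 z j) fun j _ => ?_
        have h1 := (hlv z j ((hin z hz1).2.1 j) (hv1 z j)).1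
        rw [(hin z hz1).2.2] at h1
        rw [← one_div, le_div_iff₀ (by positivity), mul_comm]
        exact h1
      calc ∑ z ∈ Yk, ∏ j, v z j ≤ ∑ z ∈ Yk, ∏ j, ((2 : ℝ) ^ κ j)⁻¹ := Finset.sum_le_sum hterm
        _ = (Yk.card : ℝ) * ∏ j, ((2 : ℝ) ^ κ j)⁻¹ := by rw [Finset.sum_const, nsmul_eq_mul]
        _ ≤ (Cm * R ^ (ε / 2) * ∏ j, (2 : ℝ) ^ (κ j + 1) / D) * ∏ j, ((2 : ℝ) ^ κ j)⁻¹ := by
          refine mul_le_mul_of_nonneg_right hnum ?_
          exact Finset.prod_nonneg fun j _ => by positivity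
        _ = Cm * R ^ (ε / 2) * ∏ j : Fin 3, (2 / D) := by
          rw [mul_assoc, ← Finset.prod_mul_distrib]
          congr 1
          refine Finset.prod_congr rfl fun j _ => ?_
          rw [pow_succ]
          field_simp
        _ ≤ Cm * R ^ (ε / 2) * 8 := by
          refine mul_le_mul_of_nonneg_left ?_ (by positivity)
          rw [Finset.prod_const, Finset.card_univ, Fintype.card_fin]
          have h1 : 2 / D ≤ 2 := by
            rw [div_le_iff₀ hD0]
            linarith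
          calc (2 / D) ^ 3 ≤ 2 ^ 3 := by gcongr
            _ = 8 := by norm_num
        _ = 8 * Cm * R ^ (ε / 2) := by ring
    calc ∑ κ ∈ K, ∑ z ∈ Y1.filter (fun z => lv z = κ), ∏ j, v z j
        ≤ ∑ κ ∈ K, 8 * Cm * R ^ (ε / 2) := Finset.sum_le_sum hfib
      _ = (K.card : ℝ) * (8 * Cm * R ^ (ε / 2)) := by rw [Finset.sum_const, nsmul_eq_mul]
      _ ≤ (Cl * R ^ (ε / 2)) * (8 * Cm * R ^ (ε / 2)) := by
        refine mul_le_mul_of_nonneg_right ?_ (by positivity)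
        refine le_trans ?_ hn2
        rw [hK, Fintype.card_piFinset]
        simp only [Finset.card_range, Finset.prod_const, Finset.card_univ, Fintype.card_fin]
        push_cast
        have : (0 : ℝ) ≤ n := Nat.cast_nonneg n
        gcongr
        linarith
      _ = 8 * Cm * Cl * (R ^ (ε / 2) * R ^ (ε / 2)) := by ring
      _ = 8 * Cm * Cl * R ^ ε := by
        rw [← Real.rpow_add hR0, add_halves]
  have hRε : 1 ≤ R ^ ε := Real.one_le_rpow hR hε.le
  have hall : ∑ z ∈ Y, ∏ j, v z j ≤ (1 + 8 * Cm * Cl) * R ^ ε := by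
    rw [hsplit]
    linarith
  have hps : 0 ≤ ∏ j, s j := Finset.prod_nonneg fun j _ => hs0 j
  calc ∑ z ∈ Y, ∏ j, ‖U (b j) z‖ = (∑ z ∈ Y, ∏ j, v z j) * (D ^ 3 * ∏ j, s j) := by
        rw [Finset.sum_mul]
        exact Finset.sum_congr rfl fun z _ => hvU z
    _ ≤ ((1 + 8 * Cm * Cl) * R ^ ε) * (D ^ 3 * ∏ j, s j) :=
        mul_le_mul_of_nonneg_right hall (by positivity)
    _ = _ := by ring

end Pool.Agent.H56.T3
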